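import Pool.Agent.Helper719.Trig.Defs

open MeasureTheory Real ProbabilityTheory
open scoped ENNReal BigOperators


namespace TrigSB
open HypVol


theorem pv_one (m : ℤ) :
    ∫ x : ℝ, Complex.exp (Complex.I * ((((m : ℤ) : ℝ) * x : ℝ) : ℂ))
      ∂((volume : Measure ℝ).restrict (Set.Icc 0 (2 * π))) =
      if m = 0 then ((2 * π : ℝ) : ℂ) else 0 := by
  have hpi : (0 : ℝ) < 2 * π := by positivity
  rw [integral_Icc_eq_integral_Ioc, ← intervalIntegral.integral_of_le hpi.le]
  by_cases hm : m = 0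
  · subst hm
    rw [if_pos rfl]
    have h1 : (fun x : ℝ => Complex.exp (Complex.I * (((((0 : ℤ) : ℤ) : ℝ) * x : ℝ) : ℂ))) =
        fun _ => (1 : ℂ) := by
      funext x
      simp
    rw [h1, intervalIntegral.integral_const, sub_zero]
    simp
  · rw [if_neg hm]
    have h1 : (fun x : ℝ => Complex.exp (Complex.I * ((((m : ℤ) : ℝ) * x : ℝ) : ℂ))) =
        fun x : ℝ => Complex.exp ((Complex.I * (m : ℂ)) * (x : ℂ)) := by
      funext x
      congr 1
      push_cast
      ring
    have hc : Complex.I * (m : ℂ) ≠ 0 :=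
      mul_ne_zero Complex.I_ne_zero (by exact_mod_cast hm)
    have h2 : Complex.exp (Complex.I * (m : ℂ) * ((2 * π : ℝ) : ℂ)) = 1 := by
      have h3 : Complex.I * (m : ℂ) * ((2 * π : ℝ) : ℂ) =
          (m : ℂ) * (2 * (π : ℂ) * Complex.I) := by
        push_cast
        ring
      rw [h3]
      exact Complex.exp_int_mul_two_pi_mul_I m
    rw [h1, integral_exp_mul_complex hc, h2]
    simp

/-- character -/
noncomputable def chi {d : ℕ} (k : Fin d → ℤ) (x : Fin d → ℝ) : ℂ :=
  Complex.exp (Complex.I * ∑ j : Fin d, ((((k j : ℝ) * x j : ℝ)) : ℂ))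

theorem chi_conj {d : ℕ} (k : Fin d → ℤ) (x : Fin d → ℝ) :
    (starRingEnd ℂ) (chi k x) = Complex.exp (-(Complex.I * ∑ j : Fin d, ((((k j : ℝ) * x j : ℝ)) : ℂ))) := by
  unfold chi
  rw [← Complex.exp_conj]
  congr 1
  rw [map_mul, Complex.conj_I, map_sum]
  simp only [Complex.conj_ofReal]
  ring

theorem chi_cont {d : ℕ} (k : Fin d → ℤ) : Continuous (chi (d := d) k) := by
  unfold chi
  fun_prop

theorem chi_norm {d : ℕ} (k : Fin d → ℤ) (x : Fin d → ℝ) : ‖chi k x‖ = 1 := by
  unfold chi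
  rw [← Complex.ofReal_sum, Complex.norm_exp_I_mul_ofReal]

theorem pv_restrict (d : ℕ) : (volume : Measure (Fin d → ℝ)).restrict
    (Set.pi Set.univ (fun _ : Fin d => Set.Icc (0:ℝ) (2 * Real.pi)))
    = Measure.pi (fun _ : Fin d => (volume : Measure ℝ).restrict (Set.Icc 0 (2 * π))) := by
  rw [volume_pi, Measure.restrict_pi_pi]

theorem pv_orth {d : ℕ} (l k : Fin d → ℤ) :
    ∫ x : Fin d → ℝ, chi l x * (starRingEnd ℂ) (chi k x)
      ∂(Measure.pi (fun _ : Fin d => (volume : Measure ℝ).restrict (Set.Icc 0 (2 * π)))) =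
      if l = k then (((2 * π) ^ d : ℝ) : ℂ) else 0 := by
  have h1 : (fun x : Fin d → ℝ => chi l x * (starRingEnd ℂ) (chi k x)) =
      fun x => ∏ j, Complex.exp (Complex.I * (((((l j - k j : ℤ)) : ℝ) * x j : ℝ) : ℂ)) := by
    funext x
    rw [chi_conj, chi, ← Complex.exp_add, ← Complex.exp_sum]
    congr 1
    push_cast
    rw [Finset.mul_sum, Finset.mul_sum, ← Finset.sum_neg_distrib, ← Finset.sum_add_distrib]
    refine Finset.sum_congr rfl fun j _ => ?_
    ring
  rw [h1]
  have h2 := integral_fintype_prod_eq_prod (𝕜 := ℂ) (ι := Fin d) (E := fun _ => ℝ)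
    (μ := fun _ => (volume : Measure ℝ).restrict (Set.Icc 0 (2 * π)))
    (fun j x => Complex.exp (Complex.I * (((((l j - k j : ℤ)) : ℝ) * x : ℝ) : ℂ)))
  rw [h2, Finset.prod_congr rfl fun j _ => pv_one (l j - k j)]
  by_cases h : l = k
  · rw [if_pos h, h]
    simp
  · rw [if_neg h]
    obtain ⟨j, hj⟩ : ∃ j, l j ≠ k j := by
      by_contra hcon
      push Not at hcon
      exact h (funext hcon)
    exact Finset.prod_eq_zero (Finset.mem_univ j) (if_neg (sub_ne_zero.2 hj))

theorem pv_sq {d : ℕ} (c : (Fin d → ℤ) → ℂ) (l : Fin d → ℕ) (x : Fin d → ℝ) :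
    ((‖blockPoly c l x‖^2 : ℝ) : ℂ) = ∑ k ∈ block l, ∑ k' ∈ block l,
      (c k * (starRingEnd ℂ) (c k')) * (chi k x * (starRingEnd ℂ) (chi k' x)) := by
  have h0 : blockPoly c l x = ∑ k ∈ block l, c k * chi k x := rfl
  have h1 : ((‖blockPoly c l x‖^2 : ℝ) : ℂ) = blockPoly c l x * (starRingEnd ℂ) (blockPoly c l x) := by
    rw [Complex.mul_conj']
    push_cast
    rfl
  rw [h1, h0, map_sum, Finset.sum_mul_sum]
  refine Finset.sum_congr rfl fun k _ => Finset.sum_congr rfl fun k' _ => ?_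
  rw [map_mul]
  ring

theorem parseval {d : ℕ} (c : (Fin d → ℤ) → ℂ) (l : Fin d → ℕ) :
    (1 / (2 * Real.pi)) ^ d *
      ∫ x in Set.pi Set.univ (fun _ : Fin d => Set.Icc (0:ℝ) (2 * Real.pi)), ‖blockPoly c l x‖^2
      = ∑ k ∈ block l, ‖c k‖^2 := by
  rw [pv_restrict]
  have hfin : IsFiniteMeasure (Measure.pi (fun _ : Fin d =>
      (volume : Measure ℝ).restrict (Set.Icc 0 (2 * π)))) := by
    infer_instance
  have hpi : (0:ℝ) < 2 * Real.pi := by positivity
  have key : ((∫ x : Fin d → ℝ, ‖blockPoly c l x‖^2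
      ∂(Measure.pi (fun _ : Fin d => (volume : Measure ℝ).restrict (Set.Icc 0 (2 * π)))) : ℝ) : ℂ)
      = (((2 * π) ^ d * ∑ k ∈ block l, ‖c k‖^2 : ℝ) : ℂ) := by
    refine integral_complex_ofReal.symm.trans ?_
    have h1 : (fun x : Fin d → ℝ => ((‖blockPoly c l x‖^2 : ℝ) : ℂ)) = fun x =>
        ∑ k ∈ block l, ∑ k' ∈ block l,
          (c k * (starRingEnd ℂ) (c k')) * (chi k x * (starRingEnd ℂ) (chi k' x)) := by
      funext x
      exact pv_sq c l x
    have hI : ∀ k k' : Fin d → ℤ, Integrable (fun x : Fin d → ℝ =>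
        (c k * (starRingEnd ℂ) (c k')) * (chi k x * (starRingEnd ℂ) (chi k' x)))
        (Measure.pi (fun _ : Fin d => (volume : Measure ℝ).restrict (Set.Icc 0 (2 * π)))) := by
      intro k k'
      refine Integrable.const_mul ?_ _
      refine Integrable.of_bound (C := 1) ?_ (Filter.Eventually.of_forall fun x => ?_)
      · refine Continuous.aestronglyMeasurable ?_
        exact (chi_cont k).mul (Complex.continuous_conj.comp (chi_cont k'))
      · rw [norm_mul, RCLike.norm_conj, chi_norm, chi_norm, one_mul]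
    have h2 := congrArg (fun F : (Fin d → ℝ) → ℂ => ∫ x, F x
      ∂(Measure.pi (fun _ : Fin d => (volume : Measure ℝ).restrict (Set.Icc 0 (2 * π))))) h1
    refine Eq.trans h2 ?_
    show ∫ x, (∑ k ∈ block l, ∑ k' ∈ block l,
          (c k * (starRingEnd ℂ) (c k')) * (chi k x * (starRingEnd ℂ) (chi k' x)))
        ∂(Measure.pi (fun _ : Fin d => (volume : Measure ℝ).restrict (Set.Icc 0 (2 * π)))) = _
    rw [integral_finsetSum _ fun k _ => integrable_finset_sum _ fun k' _ => hI k k']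
    have h3 : ∀ k ∈ block l, ∫ x, (∑ k' ∈ block l,
          (c k * (starRingEnd ℂ) (c k')) * (chi k x * (starRingEnd ℂ) (chi k' x)))
        ∂(Measure.pi (fun _ : Fin d => (volume : Measure ℝ).restrict (Set.Icc 0 (2 * π))))
        = (((2 * π) ^ d * ‖c k‖^2 : ℝ) : ℂ) := by
      intro k hk
      rw [integral_finsetSum _ fun k' _ => hI k k']
      have h4 : ∀ k' ∈ block l, ∫ x, (c k * (starRingEnd ℂ) (c k')) *
          (chi k x * (starRingEnd ℂ) (chi k' x))
        ∂(Measure.pi (fun _ : Fin d => (volume : Measure ℝ).restrict (Set.Icc 0 (2 * π))))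
        = if k = k' then (((2 * π) ^ d * ‖c k‖^2 : ℝ) : ℂ) else 0 := by
        intro k' _
        rw [integral_const_mul, pv_orth]
        by_cases h : k = k'
        · rw [if_pos h, if_pos h, ← h, Complex.mul_conj']
          push_cast
          ring
        · rw [if_neg h, if_neg h, mul_zero]
      rw [Finset.sum_congr rfl h4, Finset.sum_ite_eq, if_pos hk]
    rw [Finset.sum_congr rfl h3, ← Complex.ofReal_sum, Finset.mul_sum]
  have key' := Complex.ofReal_injective key
  rw [key', ← mul_assoc, ← mul_pow]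
  rw [one_div, inv_mul_cancel₀ hpi.ne', one_pow, one_mul]

end TrigSB
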