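import Pool.Agent.Helper719.Trig.Defs
import Pool.Agent.Helper719.Trig.P_parseval

open MeasureTheory Real ProbabilityTheory
open scoped ENNReal BigOperators


namespace TrigSB
open HypVol


theorem L1_le_L2 {d : ℕ} (c : (Fin d → ℤ) → ℂ) (l : Fin d → ℕ) :
    L1 c l ≤ Real.sqrt (∑ k ∈ block l, ‖c k‖^2) := by
  set S : Set (Fin d → ℝ) := Set.pi Set.univ (fun _ : Fin d => Set.Icc (0:ℝ) (2 * Real.pi)) with hS
  have hcS : IsCompact S := isCompact_univ_pi (fun _ => isCompact_Icc)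
  have hcont : Continuous (fun x : Fin d → ℝ => ‖blockPoly c l x‖) := by
    unfold blockPoly
    fun_prop
  have hi1 : IntegrableOn (fun x : Fin d → ℝ => ‖blockPoly c l x‖) S volume :=
    hcont.continuousOn.integrableOn_compact hcS
  have hi2 : IntegrableOn (fun x : Fin d → ℝ => ‖blockPoly c l x‖ ^ 2) S volume :=
    (hcont.pow 2).continuousOn.integrableOn_compact hcS
  have hV : (volume : Measure (Fin d → ℝ)).real S = (2 * Real.pi) ^ d := by
    rw [Measure.real, hS, volume_pi_pi]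
    simp only [Real.volume_Icc, sub_zero, Finset.prod_const, Finset.card_univ, Fintype.card_fin,
      ENNReal.toReal_pow]
    rw [ENNReal.toReal_ofReal (by positivity)]
  have hw : (1 / (2 * Real.pi)) ^ d * (2 * Real.pi) ^ d = 1 := by
    rw [← mul_pow, one_div, inv_mul_cancel₀ (by positivity), one_pow]
  set A : ℝ := L1 c l with hA
  have hA1 : A = (1 / (2 * Real.pi)) ^ d * ∫ x in S, ‖blockPoly c l x‖ := rfl
  have hconst : IntegrableOn (fun _ : Fin d → ℝ => A ^ 2) S volume :=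
    continuous_const.continuousOn.integrableOn_compact hcS
  have h0 : 0 ≤ ∫ x in S, (‖blockPoly c l x‖ - A) ^ 2 :=
    integral_nonneg (fun x => sq_nonneg _)
  have h1 : ∫ x in S, (‖blockPoly c l x‖ - A) ^ 2 =
      (∫ x in S, ‖blockPoly c l x‖ ^ 2) - 2 * A * (∫ x in S, ‖blockPoly c l x‖) +
        A ^ 2 * (2 * Real.pi) ^ d := by
    have e1 : (fun x : Fin d → ℝ => (‖blockPoly c l x‖ - A) ^ 2) =
        fun x => (‖blockPoly c l x‖ ^ 2 - 2 * A * ‖blockPoly c l x‖) + A ^ 2 := by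
      funext x; ring
    have hsub : Integrable (fun x : Fin d → ℝ => ‖blockPoly c l x‖ ^ 2 - 2 * A * ‖blockPoly c l x‖)
        (volume.restrict S) := hi2.sub (hi1.const_mul (2 * A))
    have hm : Integrable (fun x : Fin d → ℝ => 2 * A * ‖blockPoly c l x‖)
        (volume.restrict S) := hi1.const_mul (2 * A)
    rw [e1]
    rw [integral_add hsub hconst]
    rw [integral_sub hi2 hm]
    rw [integral_const_mul, setIntegral_const, hV, smul_eq_mul]
    ring
  have hP := parseval c l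
  rw [← hS] at hP
  have hwpos : 0 ≤ (1 / (2 * Real.pi)) ^ d := by positivity
  have h2 : 0 ≤ (1 / (2 * Real.pi)) ^ d * ((∫ x in S, ‖blockPoly c l x‖ ^ 2) -
      2 * A * (∫ x in S, ‖blockPoly c l x‖) + A ^ 2 * (2 * Real.pi) ^ d) := by
    rw [← h1]; exact mul_nonneg hwpos h0
  have h3 : (1 / (2 * Real.pi)) ^ d * ((∫ x in S, ‖blockPoly c l x‖ ^ 2) -
      2 * A * (∫ x in S, ‖blockPoly c l x‖) + A ^ 2 * (2 * Real.pi) ^ d) =
      (∑ k ∈ block l, ‖c k‖^2) - A ^ 2 := by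
    have e2 : (1 / (2 * Real.pi)) ^ d * ((∫ x in S, ‖blockPoly c l x‖ ^ 2) -
      2 * A * (∫ x in S, ‖blockPoly c l x‖) + A ^ 2 * (2 * Real.pi) ^ d) =
      (1 / (2 * Real.pi)) ^ d * (∫ x in S, ‖blockPoly c l x‖ ^ 2) -
      2 * A * ((1 / (2 * Real.pi)) ^ d * ∫ x in S, ‖blockPoly c l x‖) +
      A ^ 2 * ((1 / (2 * Real.pi)) ^ d * (2 * Real.pi) ^ d) := by ring
    rw [e2, hw, hP, ← hA1]; ring
  have h4 : A ^ 2 ≤ ∑ k ∈ block l, ‖c k‖^2 := by rw [h3] at h2; linarith
  exact (le_abs_self A).trans (Real.abs_le_sqrt h4)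

end TrigSB
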