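import Pool.Agent.Helper719.Trig.Defs

open MeasureTheory Real ProbabilityTheory
open scoped ENNReal BigOperators


namespace TrigSB
open HypVol


theorem card_anti (d m : ℕ) : (Finset.Nat.antidiagonalTuple d m).card = shp d m := by
  unfold shp
  symm
  refine Finset.card_bij (fun s _ => fun j => ((s j : Fin (m + 1)) : ℕ)) ?_ ?_ ?_
  · intro s hs
    rw [Finset.Nat.mem_antidiagonalTuple]
    unfold Sh at hs
    exact (Finset.mem_filter.mp hs).2
  · intro s _ s' _ h
    funext j
    exact Fin.ext (congrFun h j)
  · intro l hl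
    rw [Finset.Nat.mem_antidiagonalTuple] at hl
    have hle : ∀ j, l j < m + 1 := by
      intro j
      have := Finset.single_le_sum (f := l) (fun i _ => Nat.zero_le _) (Finset.mem_univ j)
      omega
    refine ⟨fun j => ⟨l j, hle j⟩, ?_, rfl⟩
    unfold Sh
    exact Finset.mem_filter.mpr ⟨Finset.mem_univ _, hl⟩

end TrigSB
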