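import Pool.Agent.Helper719.Trig.Defs

open MeasureTheory Real ProbabilityTheory
open scoped ENNReal BigOperators


namespace TrigSB
open HypVol


theorem cb_one (s : ℕ) : ((Finset.Ioo (-(2:ℤ) ^ s) ((2:ℤ) ^ s)).filter
      (fun t : ℤ => (2:ℤ) ^ s / 2 ≤ |t|)).card = 2 ^ s := by
  cases s with
  | zero =>
    decide
  | succ r =>
    have h2 : (2:ℤ) ^ (r + 1) / 2 = 2 ^ r := by
      rw [pow_succ]
      exact Int.mul_ediv_cancel _ (by norm_num)
    have hp : (0:ℤ) < 2 ^ r := by positivity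
    have hpp : (2:ℤ) ^ (r + 1) = 2 ^ r + 2 ^ r := by rw [pow_succ]; ring
    have hE : (Finset.Ioo (-(2:ℤ) ^ (r + 1)) ((2:ℤ) ^ (r + 1))).filter
        (fun t : ℤ => (2:ℤ) ^ (r + 1) / 2 ≤ |t|) =
        Finset.Ico ((2:ℤ) ^ r) ((2:ℤ) ^ (r + 1)) ∪
          Finset.Ioc (-(2:ℤ) ^ (r + 1)) (-(2:ℤ) ^ r) := by
      rw [h2, hpp]
      ext t
      rw [Finset.mem_filter, Finset.mem_Ioo, Finset.mem_union, Finset.mem_Ico, Finset.mem_Ioc]
      rcases le_total 0 t with h | h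
      · rw [abs_of_nonneg h]
        omega
      · rw [abs_of_nonpos h]
        omega
    have hD : Disjoint (Finset.Ico ((2:ℤ) ^ r) ((2:ℤ) ^ (r + 1)))
        (Finset.Ioc (-(2:ℤ) ^ (r + 1)) (-(2:ℤ) ^ r)) := by
      rw [Finset.disjoint_left]
      intro t ht ht'
      rw [Finset.mem_Ico] at ht
      rw [Finset.mem_Ioc] at ht'
      omega
    rw [hE, Finset.card_union_of_disjoint hD, Int.card_Ico, Int.card_Ioc]
    have e1 : (2:ℤ) ^ (r + 1) - 2 ^ r = ((2 ^ r : ℕ) : ℤ) := by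
      rw [hpp]
      push_cast
      ring
    have e2 : -(2:ℤ) ^ r - -(2:ℤ) ^ (r + 1) = ((2 ^ r : ℕ) : ℤ) := by
      rw [hpp]
      push_cast
      ring
    rw [e1, e2, Int.toNat_natCast, pow_succ]
    ring

theorem card_block {d m : ℕ} (l : Fin d → ℕ) (hl : l ∈ Finset.Nat.antidiagonalTuple d m) :
    (block l).card = 2^(2*m) := by
  unfold block
  rw [Fintype.card_piFinset]
  rw [Finset.prod_congr rfl (fun j _ => cb_one (2 * l j)), Finset.prod_pow_eq_pow_sum]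
  rw [← Finset.mul_sum, Finset.Nat.mem_antidiagonalTuple.1 hl]

end TrigSB
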