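import Pool.Agent.Helper719.Trig.Defs

open MeasureTheory Real ProbabilityTheory
open scoped ENNReal BigOperators


namespace TrigSB
open HypVol


theorem mem_block_aux (s : ℕ) (t : ℤ) :
    ((-(2:ℤ) ^ s < t ∧ t < (2:ℤ) ^ s) ∧ (2:ℤ) ^ s / 2 ≤ |t|) ↔ Nat.size t.natAbs = s := by
  rw [← abs_lt, Int.abs_eq_natAbs]
  generalize t.natAbs = n
  have h1 : ((n : ℤ) < (2:ℤ) ^ s) ↔ Nat.size n ≤ s := by
    rw [Nat.size_le]
    exact_mod_cast Iff.rfl
  rw [h1]
  rcases s with _ | r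
  · simp
  · have h2 : (2:ℤ) ^ (r + 1) / 2 = ((2 ^ r : ℕ) : ℤ) := by
      rw [pow_succ]
      rw [Int.mul_ediv_cancel _ (by norm_num)]
      push_cast
      rfl
    rw [h2]
    have h3 : (((2 ^ r : ℕ) : ℤ) ≤ (n : ℤ)) ↔ r < Nat.size n := by
      rw [Nat.lt_size]
      exact_mod_cast Iff.rfl
    rw [h3]
    omega

theorem mem_block {d : ℕ} (l : Fin d → ℕ) (k : Fin d → ℤ) :
    k ∈ block l ↔ ∀ j, Nat.size (k j).natAbs = 2 * l j := by
  unfold block
  rw [Fintype.mem_piFinset]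
  refine forall_congr' fun j => ?_
  rw [Finset.mem_filter, Finset.mem_Ioo]
  exact mem_block_aux (2 * l j) (k j)

end TrigSB
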