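import Pool.Agent.Helper719.Trig.Defs
import Pool.Agent.Helper719.Trig.P_mem_block
import Pool.Agent.Helper719.Trig.P_card_block
import Pool.Agent.Helper719.Trig.P_card_anti

open MeasureTheory Real ProbabilityTheory
open scoped ENNReal BigOperators


namespace TrigSB
open HypVol


theorem card_freq (d m : ℕ) : (freq d m).card = 2^(2*m) * shp d m := by
  classical
  unfold freq
  rw [Finset.card_biUnion]
  · rw [Finset.sum_congr rfl fun l hl => card_block l hl, Finset.sum_const, card_anti, smul_eq_mul,
      mul_comm]
  · intro l _ l' _ hne
    rw [Function.onFun, Finset.disjoint_left]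
    intro k hk hk'
    rw [mem_block] at hk hk'
    apply hne
    funext j
    have h1 := hk j
    have h2 := hk' j
    omega

end TrigSB
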