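import Mathlib
import Pool.Agent.HypVol.Defs
open MeasureTheory Real ProbabilityTheory
open scoped ENNReal BigOperators

/-!
Trigonometric polynomials with frequencies in the blocks `ρ(s)`, all coordinates of `s` even and
`s_1 + ... + s_d = 2m`.
-/

namespace TrigSB

open HypVol

/-- The block `ρ(s)` with `s = 2l`: the `k` with `⌊2^(s_j - 1)⌋ ≤ |k_j| < 2^(s_j)` for all `j`. -/
noncomputable def block {d : ℕ} (l : Fin d → ℕ) : Finset (Fin d → ℤ) :=
  Fintype.piFinset (fun j : Fin d =>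
    (Finset.Ioo (-(2:ℤ) ^ (2 * l j)) ((2:ℤ) ^ (2 * l j))).filter
      (fun t : ℤ => (2:ℤ) ^ (2 * l j) / 2 ≤ |t|))

/-- The set of all frequencies: the union of the blocks `ρ(2l)` with `l_1 + ... + l_d = m`. -/
noncomputable def freq (d m : ℕ) : Finset (Fin d → ℤ) := (Finset.Nat.antidiagonalTuple d m).biUnion block

/-- The complex coefficients `a_k` with real part `a (k,0)` and imaginary part `a (k,1)`. -/
noncomputable def coef {d m : ℕ} (a : (freq d m) × Fin 2 → ℝ) (k : Fin d → ℤ) : ℂ :=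
  if h : k ∈ freq d m then ((a (⟨k, h⟩, 0) : ℝ) : ℂ) + ((a (⟨k, h⟩, 1) : ℝ) : ℂ) * Complex.I else 0

/-- The block polynomial `P_s`, `s = 2l`, with the coefficients `c k`. -/
noncomputable def blockPoly {d : ℕ} (c : (Fin d → ℤ) → ℂ) (l : Fin d → ℕ) (x : Fin d → ℝ) : ℂ :=
  ∑ k ∈ block l, c k * Complex.exp (Complex.I * ∑ j : Fin d, ((((k j : ℝ) * x j : ℝ)) : ℂ))

/-- The sup norm of `∑_s P_s`, the sum over `s = 2l`, `l_1 + ... + l_d = m`. -/
noncomputable def supNorm {d : ℕ} (m : ℕ) (c : (Fin d → ℤ) → ℂ) : ℝ :=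
  ⨆ x : Fin d → ℝ, ‖∑ l ∈ Finset.Nat.antidiagonalTuple d m, blockPoly c l x‖

/-- The normalised `L_1` norm of `P_s`, `s = 2l`. -/
noncomputable def L1 {d : ℕ} (c : (Fin d → ℤ) → ℂ) (l : Fin d → ℕ) : ℝ :=
  (1 / (2 * Real.pi)) ^ d *
    ∫ x in Set.pi Set.univ (fun _ : Fin d => Set.Icc (0:ℝ) (2 * Real.pi)), ‖blockPoly c l x‖

/-- orthonormal system on the grid -/
noncomputable def tbE {d m : ℕ} (β : (freq d m) × Fin 2) (x : Gr d (2*m)) : ℝ :=
  Real.sqrt 2 * (if β.2 = x.2 then Real.cos (th β.1.1 x.1)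
    else if β.2 = 0 then Real.sin (th β.1.1 x.1) else - Real.sin (th β.1.1 x.1))

end TrigSB
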