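import Pool.Agent.Helper719.Trig.Defs
import Pool.Agent.Helper719.Trig.P_mem_block

open MeasureTheory Real ProbabilityTheory
open scoped ENNReal BigOperators


namespace TrigSB
open HypVol


theorem mem_freq (d m : ℕ) (k : Fin d → ℤ) :
    k ∈ freq d m ↔ (∑ j, Nat.size (k j).natAbs = 2 * m ∧ ∀ j, Even (Nat.size (k j).natAbs)) := by
  unfold freq
  rw [Finset.mem_biUnion]
  constructor
  · rintro ⟨l, hl, hk⟩
    rw [Finset.Nat.mem_antidiagonalTuple] at hl
    rw [mem_block] at hk
    constructor
    · rw [Finset.sum_congr rfl fun j _ => hk j, ← Finset.mul_sum, hl]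
    · intro j
      rw [hk j]
      exact even_two_mul _
  · rintro ⟨hs, he⟩
    have h1 : ∀ j, Nat.size (k j).natAbs = 2 * (Nat.size (k j).natAbs / 2) := fun j =>
      (Nat.two_mul_div_two_of_even (he j)).symm
    refine ⟨fun j => Nat.size (k j).natAbs / 2, ?_, ?_⟩
    · rw [Finset.Nat.mem_antidiagonalTuple]
      rw [Finset.sum_congr rfl fun j _ => h1 j, ← Finset.mul_sum] at hs
      omega
    · rw [mem_block]
      exact h1
end TrigSB
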