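import Pool.Agent.Helper719.Trig.Defs
import Pool.Agent.HypVol.L_tb_facts
import Pool.Agent.HypVol.L_layer_bound
import Pool.Agent.HypVol.L_blk
import Pool.Agent.HypVol.L_mem_layer
import Pool.Agent.Helper719.Trig.P_mem_freq

open MeasureTheory Real ProbabilityTheory
open scoped ENNReal BigOperators

namespace TrigSB

open HypVol

theorem freq_sub (d m : ℕ) : freq d m ⊆ layer d (2*m) := by
  intro k hk
  rw [HypVol.mem_layer_iff]
  exact ((mem_freq d m k).1 hk).1

section tbv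
variable {d m : ℕ} {k : freq d m} {p : Fin d → Fin (2 ^ (2*m + 2))}
theorem tE00 : tbE (k, 0) (p, 0) = Real.sqrt 2 * Real.cos (th k.1 p) := by simp [tbE]
theorem tE01 : tbE (k, 0) (p, 1) = Real.sqrt 2 * Real.sin (th k.1 p) := by simp [tbE]
theorem tE10 : tbE (k, 1) (p, 0) = Real.sqrt 2 * (- Real.sin (th k.1 p)) := by simp [tbE]
theorem tE11 : tbE (k, 1) (p, 1) = Real.sqrt 2 * Real.cos (th k.1 p) := by simp [tbE]
end tbv

theorem s2 (a b : ℝ) : Real.sqrt 2 * a * (Real.sqrt 2 * b) = 2 * (a * b) := by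
  have := Real.mul_self_sqrt (show (0 : ℝ) ≤ 2 by norm_num)
  calc Real.sqrt 2 * a * (Real.sqrt 2 * b) = (Real.sqrt 2 * Real.sqrt 2) * (a * b) := by ring
    _ = 2 * (a * b) := by rw [this]

theorem tbE_facts (d m : ℕ) (hm : 1 ≤ m) :
    (∀ i : (freq d m) × Fin 2, ∑ x : Gr d (2*m), tbE i x = 0) ∧
    (∀ i j : (freq d m) × Fin 2, ∑ x : Gr d (2*m), tbE i x * tbE j x
      = if i = j then (Fintype.card (Gr d (2*m)) : ℝ) else 0) ∧
    (∀ x : Gr d (2*m), ∑ i : (freq d m) × Fin 2, tbE i x ^ 2 = Fintype.card ((freq d m) × Fin 2)) ∧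
    (∀ x y : Gr d (2*m), |∑ i : (freq d m) × Fin 2, tbE i x * tbE i y|
      ≤ 2 * ‖∑ k ∈ freq d m, Complex.exp (Complex.I * ((th k x.1 - th k y.1 : ℝ) : ℂ))‖) := by
  refine ⟨?_, ?_, ?_, ?_⟩
  · rintro ⟨k, e⟩
    have hk := HypVol.Sol_tb_facts.layer_facts (freq_sub d m k.2) (by omega : 1 ≤ 2*m)
    have h1 : ∀ j, |k.1 j| < 2 ^ (2*m + 2) := by
      intro j
      refine (hk.2 j).trans ?_
      have h4 : (2 : ℤ) ^ (2*m + 2) = 4 * 2 ^ (2*m) := by ring
      have h5 : (0 : ℤ) < 2 ^ (2*m) := by positivity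
      linarith
    obtain ⟨hc, hs⟩ := HypVol.Sol_tb_facts.trig0 (n := 2*m) h1 hk.1
    rw [Fintype.sum_prod_type]
    simp only [Fin.sum_univ_two]
    fin_cases e
    · show ∑ p, (tbE (k, 0) (p, 0) + tbE (k, 0) (p, 1)) = 0
      simp only [tE00, tE01]
      rw [Finset.sum_add_distrib, ← Finset.mul_sum, ← Finset.mul_sum, hc, hs]
      ring
    · show ∑ p, (tbE (k, 1) (p, 0) + tbE (k, 1) (p, 1)) = 0
      simp only [tE10, tE11]
      rw [Finset.sum_add_distrib, ← Finset.mul_sum, ← Finset.mul_sum, Finset.sum_neg_distrib, hc, hs]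
      ring
  · rintro ⟨k, e⟩ ⟨l, f⟩
    obtain ⟨hc, hs⟩ := HypVol.Sol_tb_facts.trig2 (by omega : 1 ≤ 2*m) (freq_sub d m k.2) (freq_sub d m l.2)
    rw [Fintype.sum_prod_type]
    simp only [Fin.sum_univ_two]
    have hcard : (Fintype.card (Gr d (2*m)) : ℝ)
        = 2 * (Fintype.card (Fin d → Fin (2 ^ (2*m + 2))) : ℝ) := by
      rw [Fintype.card_prod, Fintype.card_fin]; push_cast; ring
    have hkl : (k.1 = l.1) ↔ k = l := Subtype.ext_iff.symm
    fin_cases e <;> fin_cases f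
    · show ∑ p, (tbE (k, 0) (p, 0) * tbE (l, 0) (p, 0) + tbE (k, 0) (p, 1) * tbE (l, 0) (p, 1)) = _
      have : ∀ p : Fin d → Fin (2 ^ (2*m + 2)),
          (tbE (k, 0) (p, 0) * tbE (l, 0) (p, 0) + tbE (k, 0) (p, 1) * tbE (l, 0) (p, 1))
          = 2 * Real.cos (th k.1 p - th l.1 p) := by
        intro p; rw [tE00, tE00, tE01, tE01, s2, s2, Real.cos_sub]; ring
      simp only [this]
      rw [← Finset.mul_sum, hc]
      by_cases h : k = l
      · rw [if_pos (hkl.2 h), if_pos (by rw [h]), hcard]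
      · rw [if_neg (fun h' => h (hkl.1 h')), if_neg (fun h' => h (Prod.ext_iff.1 h').1), mul_zero]
    · show ∑ p, (tbE (k, 0) (p, 0) * tbE (l, 1) (p, 0) + tbE (k, 0) (p, 1) * tbE (l, 1) (p, 1)) = _
      have : ∀ p : Fin d → Fin (2 ^ (2*m + 2)),
          (tbE (k, 0) (p, 0) * tbE (l, 1) (p, 0) + tbE (k, 0) (p, 1) * tbE (l, 1) (p, 1))
          = 2 * Real.sin (th k.1 p - th l.1 p) := by
        intro p; rw [tE00, tE10, tE01, tE11, s2, s2, Real.sin_sub]; ring
      simp only [this]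
      rw [← Finset.mul_sum, hs, if_neg (fun h' => by simpa using (Prod.ext_iff.1 h').2), mul_zero]
    · show ∑ p, (tbE (k, 1) (p, 0) * tbE (l, 0) (p, 0) + tbE (k, 1) (p, 1) * tbE (l, 0) (p, 1)) = _
      have : ∀ p : Fin d → Fin (2 ^ (2*m + 2)),
          (tbE (k, 1) (p, 0) * tbE (l, 0) (p, 0) + tbE (k, 1) (p, 1) * tbE (l, 0) (p, 1))
          = (-2) * Real.sin (th k.1 p - th l.1 p) := by
        intro p; rw [tE10, tE00, tE11, tE01, s2, s2, Real.sin_sub]; ring
      simp only [this]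
      rw [← Finset.mul_sum, hs, if_neg (fun h' => by simpa using (Prod.ext_iff.1 h').2), mul_zero]
    · show ∑ p, (tbE (k, 1) (p, 0) * tbE (l, 1) (p, 0) + tbE (k, 1) (p, 1) * tbE (l, 1) (p, 1)) = _
      have : ∀ p : Fin d → Fin (2 ^ (2*m + 2)),
          (tbE (k, 1) (p, 0) * tbE (l, 1) (p, 0) + tbE (k, 1) (p, 1) * tbE (l, 1) (p, 1))
          = 2 * Real.cos (th k.1 p - th l.1 p) := by
        intro p; rw [tE10, tE10, tE11, tE11, s2, s2, Real.cos_sub]; ring
      simp only [this]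
      rw [← Finset.mul_sum, hc]
      by_cases h : k = l
      · rw [if_pos (hkl.2 h), if_pos (by rw [h]), hcard]
      · rw [if_neg (fun h' => h (hkl.1 h')), if_neg (fun h' => h (Prod.ext_iff.1 h').1), mul_zero]
  · rintro ⟨p, e⟩
    rw [Fintype.sum_prod_type]
    simp only [Fin.sum_univ_two]
    have key : ∀ k : freq d m, tbE (k, 0) (p, e) ^ 2 + tbE (k, 1) (p, e) ^ 2 = 2 := by
      intro k
      have h1 := Real.sin_sq_add_cos_sq (th k.1 p)
      fin_cases e
      · show tbE (k, 0) (p, 0) ^ 2 + tbE (k, 1) (p, 0) ^ 2 = 2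
        rw [tE00, tE10, sq, sq, s2, s2]; linarith
      · show tbE (k, 0) (p, 1) ^ 2 + tbE (k, 1) (p, 1) ^ 2 = 2
        rw [tE01, tE11, sq, sq, s2, s2]; linarith
    simp only [key]
    rw [Finset.sum_const, Finset.card_univ, Fintype.card_prod, Fintype.card_fin, nsmul_eq_mul]
    push_cast
    ring
  · rintro ⟨p, e⟩ ⟨q, f⟩
    rw [Fintype.sum_prod_type]
    simp only [Fin.sum_univ_two]
    set S : ℂ := ∑ k ∈ freq d m, Complex.exp (Complex.I * ((th k p - th k q : ℝ) : ℂ)) with hS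
    have hre : S.re = ∑ k : freq d m, Real.cos (th k.1 p - th k.1 q) := by
      rw [hS, Complex.re_sum, ← Finset.sum_coe_sort (freq d m)]
      apply Finset.sum_congr rfl
      intro k _
      rw [mul_comm, Complex.exp_ofReal_mul_I_re]
    have him : S.im = ∑ k : freq d m, Real.sin (th k.1 p - th k.1 q) := by
      rw [hS, Complex.im_sum, ← Finset.sum_coe_sort (freq d m)]
      apply Finset.sum_congr rfl
      intro k _
      rw [mul_comm, Complex.exp_ofReal_mul_I_im]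
    have h1 : |2 * S.re| ≤ 2 * ‖S‖ := by
      rw [abs_mul, abs_two]
      exact mul_le_mul_of_nonneg_left (Complex.abs_re_le_norm S) (by norm_num)
    have h2 : |2 * S.im| ≤ 2 * ‖S‖ := by
      rw [abs_mul, abs_two]
      exact mul_le_mul_of_nonneg_left (Complex.abs_im_le_norm S) (by norm_num)
    fin_cases e <;> fin_cases f
    · show |∑ k : freq d m, (tbE (k, 0) (p, 0) * tbE (k, 0) (q, 0) + tbE (k, 1) (p, 0) * tbE (k, 1) (q, 0))| ≤ _
      have : ∑ k : freq d m, (tbE (k, 0) (p, 0) * tbE (k, 0) (q, 0) + tbE (k, 1) (p, 0) * tbE (k, 1) (q, 0))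
          = 2 * S.re := by
        rw [hre, Finset.mul_sum]
        apply Finset.sum_congr rfl
        intro k _
        rw [tE00, tE00, tE10, tE10, s2, s2, Real.cos_sub]; ring
      rw [this]; exact h1
    · show |∑ k : freq d m, (tbE (k, 0) (p, 0) * tbE (k, 0) (q, 1) + tbE (k, 1) (p, 0) * tbE (k, 1) (q, 1))| ≤ _
      have : ∑ k : freq d m, (tbE (k, 0) (p, 0) * tbE (k, 0) (q, 1) + tbE (k, 1) (p, 0) * tbE (k, 1) (q, 1))
          = -(2 * S.im) := by
        rw [him, Finset.mul_sum, ← Finset.sum_neg_distrib]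
        apply Finset.sum_congr rfl
        intro k _
        rw [tE00, tE01, tE10, tE11, s2, s2, Real.sin_sub]; ring
      rw [this, abs_neg]; exact h2
    · show |∑ k : freq d m, (tbE (k, 0) (p, 1) * tbE (k, 0) (q, 0) + tbE (k, 1) (p, 1) * tbE (k, 1) (q, 0))| ≤ _
      have : ∑ k : freq d m, (tbE (k, 0) (p, 1) * tbE (k, 0) (q, 0) + tbE (k, 1) (p, 1) * tbE (k, 1) (q, 0))
          = 2 * S.im := by
        rw [him, Finset.mul_sum]
        apply Finset.sum_congr rfl
        intro k _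
        rw [tE01, tE00, tE11, tE10, s2, s2, Real.sin_sub]; ring
      rw [this]; exact h2
    · show |∑ k : freq d m, (tbE (k, 0) (p, 1) * tbE (k, 0) (q, 1) + tbE (k, 1) (p, 1) * tbE (k, 1) (q, 1))| ≤ _
      have : ∑ k : freq d m, (tbE (k, 0) (p, 1) * tbE (k, 0) (q, 1) + tbE (k, 1) (p, 1) * tbE (k, 1) (q, 1))
          = 2 * S.re := by
        rw [hre, Finset.mul_sum]
        apply Finset.sum_congr rfl
        intro k _
        rw [tE01, tE01, tE11, tE11, s2, s2, Real.cos_sub]; ring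
      rw [this]; exact h1




theorem lb_fibE (d m : ℕ) (s : Fin d → Fin (2*m+1)) (hs : s ∈ Sh d (2*m)) (he : ∀ j, Even ((s j : Fin (2*m+1)) : ℕ)) :
    (freq d m).filter (fun k => (fun j => (⟨min (Nat.size (k j).natAbs) (2*m), by omega⟩ : Fin (2*m+1))) = s)
      = Fintype.piFinset (fun j => (Finset.Ioo (-(2:ℤ)^(2*m)) ((2:ℤ)^(2*m))).filter
          (fun k => Nat.size k.natAbs = (s j : ℕ))) := by
  rw [← HypVol.Sol_layer_bound.lb_fib d (2*m) s hs]
  ext k
  rw [Finset.mem_filter, Finset.mem_filter, mem_freq, HypVol.mem_layer_iff]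
  constructor
  · rintro ⟨⟨h1, -⟩, h2⟩
    exact ⟨h1, h2⟩
  · rintro ⟨h1, h2⟩
    refine ⟨⟨h1, fun j => ?_⟩, h2⟩
    have h3 : Nat.size (k j).natAbs ≤ 2*m := by
      rw [← h1]
      exact Finset.single_le_sum (f := fun j => Nat.size (k j).natAbs) (fun _ _ => Nat.zero_le _)
        (Finset.mem_univ j)
    have h4 := congrArg Fin.val (congrFun h2 j)
    have h5 : min (Nat.size (k j).natAbs) (2*m) = (s j : ℕ) := h4
    rw [min_eq_left h3] at h5
    rw [h5]
    exact he j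

theorem freq_bound (d m : ℕ) (x y : Fin d → Fin (2^(2*m+2))) :
    ‖∑ k ∈ freq d m, Complex.exp (Complex.I * ((th k x - th k y : ℝ) : ℂ))‖
      ≤ Th d (2*m) (fun j => T1 (2*m) (x j) (y j)) := by
  classical
  set S' := (Sh d (2*m)).filter (fun s => ∀ j, Even ((s j : Fin (2*m+1)) : ℕ)) with hS'
  have hmaps : ∀ k ∈ freq d m,
      (fun j => (⟨min (Nat.size (k j).natAbs) (2*m), by omega⟩ : Fin (2*m+1))) ∈ S' := by
    intro k hk
    rw [mem_freq] at hk
    have h : ∀ j, min (Nat.size (k j).natAbs) (2*m) = Nat.size (k j).natAbs := by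
      intro j
      apply min_eq_left
      rw [← hk.1]
      exact Finset.single_le_sum (f := fun j => Nat.size (k j).natAbs) (fun _ _ => Nat.zero_le _)
        (Finset.mem_univ j)
    refine Finset.mem_filter.2 ⟨Finset.mem_filter.2 ⟨Finset.mem_univ _, ?_⟩, ?_⟩
    · calc ∑ j, min (Nat.size (k j).natAbs) (2*m) = ∑ j, Nat.size (k j).natAbs :=
          Finset.sum_congr rfl fun j _ => h j
        _ = 2*m := hk.1
    · intro j
      show Even (min (Nat.size (k j).natAbs) (2*m))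
      rw [h j]
      exact hk.2 j
  rw [← Finset.sum_fiberwise_of_maps_to hmaps]
  unfold Th
  refine (norm_sum_le _ _).trans ?_
  refine le_trans ?_ (Finset.sum_le_sum_of_subset_of_nonneg (Finset.filter_subset
    (fun s => ∀ j, Even ((s j : Fin (2*m+1)) : ℕ)) (Sh d (2*m)))
    (fun _ _ _ => by positivity))
  refine Finset.sum_le_sum fun s hs => ?_
  have hs1 := (Finset.mem_filter.1 hs).1
  have hs2 := (Finset.mem_filter.1 hs).2
  rw [lb_fibE d m s hs1 hs2]
  simp_rw [HypVol.Sol_layer_bound.lb_exp]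
  rw [← Finset.prod_univ_sum (fun j => (Finset.Ioo (-(2:ℤ)^(2*m)) ((2:ℤ)^(2*m))).filter
          (fun k => Nat.size k.natAbs = (s j : ℕ))) (fun j (k : ℤ) => Complex.exp (Complex.I *
        ((2 * π * ((k : ℤ) : ℝ) * (((x j : ℕ) : ℝ) - ((y j : ℕ) : ℝ)) / 2^(2*m+2) : ℝ) : ℂ)))]
  rw [norm_prod, ← Finset.prod_pow_eq_pow_sum]
  refine Finset.prod_le_prod (fun _ _ => norm_nonneg _) fun j _ => ?_
  exact HypVol.block_bound (2*m) (s j) (by have := (s j).2; omega) (x j) (y j)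

end TrigSB
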