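import Pool.Agent.Helper719.Trig.Defs
import Pool.Agent.Helper719.Trig.P_card_block
import Pool.Agent.Helper719.Trig.P_L1_le_L2

open MeasureTheory Real ProbabilityTheory
open scoped ENNReal BigOperators


namespace TrigSB
open HypVol


theorem L1_bound {d m : ℕ} (a : (freq d m) × Fin 2 → ℝ) (B : ℝ) (hB : 0 ≤ B) (ha : ∀ β, |a β| ≤ B)
    (l : Fin d → ℕ) (hl : l ∈ Finset.Nat.antidiagonalTuple d m) :
    L1 (coef a) l ≤ Real.sqrt 2 * B * Real.sqrt (2^(2*m)) := by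
  have hk : ∀ k : Fin d → ℤ, ‖coef a k‖ ^ 2 ≤ 2 * B ^ 2 := by
    intro k
    unfold coef
    split_ifs with h
    · rw [← Complex.normSq_eq_norm_sq]
      have e : Complex.normSq (((a (⟨k, h⟩, 0) : ℝ) : ℂ) + ((a (⟨k, h⟩, 1) : ℝ) : ℂ) * Complex.I)
          = a (⟨k, h⟩, 0) ^ 2 + a (⟨k, h⟩, 1) ^ 2 := Complex.normSq_add_mul_I _ _
      rw [e]
      have h0 : a (⟨k, h⟩, 0) ^ 2 ≤ B ^ 2 := sq_le_sq' (by linarith [(abs_le.mp (ha (⟨k, h⟩, 0))).1]) (abs_le.mp (ha (⟨k, h⟩, 0))).2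
      have h1 : a (⟨k, h⟩, 1) ^ 2 ≤ B ^ 2 := sq_le_sq' (by linarith [(abs_le.mp (ha (⟨k, h⟩, 1))).1]) (abs_le.mp (ha (⟨k, h⟩, 1))).2
      linarith
    · rw [norm_zero, zero_pow two_ne_zero]
      positivity
  refine (L1_le_L2 (coef a) l).trans ?_
  have h1 : ∑ k ∈ block l, ‖coef a k‖ ^ 2 ≤ (2 * B ^ 2) * 2 ^ (2 * m) := by
    calc ∑ k ∈ block l, ‖coef a k‖ ^ 2 ≤ ∑ _k ∈ block l, 2 * B ^ 2 := Finset.sum_le_sum fun k _ => hk k
      _ = (2 * B ^ 2) * 2 ^ (2 * m) := by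
        rw [Finset.sum_const, card_block l hl, nsmul_eq_mul]
        push_cast
        ring
  refine (Real.sqrt_le_sqrt h1).trans (le_of_eq ?_)
  rw [Real.sqrt_mul (by positivity), Real.sqrt_mul (by norm_num), Real.sqrt_sq hB]

end TrigSB
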