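import Pool.Agent.Helper719.Trig.Vol
import Pool.Agent.Helper719.Trig.P_L1_bound

open MeasureTheory Real ProbabilityTheory
open scoped ENNReal BigOperators

namespace TrigSB

open HypVol

/-- smoothed small ball inequality -/
theorem smooth (d : ℕ) (hd : 3 ≤ d) (δ ε : ℝ) (hδ : 0 < δ) (hε : 0 < ε) :
    ∃ c : ℝ, 0 < c ∧ ∀ m : ℕ, 1 ≤ m → ∀ u : (freq d m) × Fin 2 → ℝ, (∀ i, |u i| ≤ 1) →
      volume {a : (freq d m) × Fin 2 → ℝ | (∀ i, |a i - u i| ≤ δ) ∧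
        ((2 * m : ℕ) : ℝ)^(((d:ℝ) - 2) / 2) * supNorm m (coef a) <
          c * ∑ l ∈ Finset.Nat.antidiagonalTuple d m, L1 (coef a) l} ≤
      ENNReal.ofReal (ε ^ Fintype.card ((freq d m) × Fin 2)) *
        volume {a : (freq d m) × Fin 2 → ℝ | ∀ i, |a i - u i| ≤ δ} := by
  obtain ⟨C, hC, hvol⟩ := vol_trig d hd
  obtain ⟨C1, hC1, hup⟩ := HypVol.shp_upper d (by omega)
  refine ⟨2 * δ * ε / (C * (1 + δ) * C1 * Real.sqrt 2), by positivity, ?_⟩
  intro m hm u hu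
  set c : ℝ := 2 * δ * ε / (C * (1 + δ) * C1 * Real.sqrt 2) with hc
  have hc0 : 0 < c := by positivity
  have hn1 : (1:ℝ) ≤ ((2*m : ℕ):ℝ) := by
    have : 1 ≤ 2 * m := by omega
    exact_mod_cast this
  have hn0 : (0:ℝ) < ((2*m : ℕ):ℝ) := by linarith
  have hnd : 0 < Real.sqrt (((2*m : ℕ):ℝ)^d) := Real.sqrt_pos.2 (by positivity)
  have h2n : 0 < Real.sqrt ((2:ℝ)^(2*m)) := Real.sqrt_pos.2 (by positivity)
  have hpw : ((2*m : ℕ):ℝ)^(((d:ℝ) - 2) / 2) * Real.sqrt (((2*m : ℕ):ℝ)^d) = ((2*m : ℕ):ℝ)^(d-1) := by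
    rw [Real.sqrt_eq_rpow, ← Real.rpow_natCast, ← Real.rpow_natCast, ← Real.rpow_mul hn0.le,
      ← Real.rpow_add hn0]
    congr 1
    have : ((d - 1 : ℕ) : ℝ) = (d:ℝ) - 1 := by
      rw [Nat.cast_sub (by omega)]; simp
    rw [this]
    ring
  have hpos : 0 < ((2*m : ℕ):ℝ)^(((d:ℝ) - 2) / 2) := Real.rpow_pos_of_pos hn0 _
  set l : ℝ := c * (1 + δ) * C1 * Real.sqrt 2 *
    (Real.sqrt ((2:ℝ)^(2*m)) * Real.sqrt (((2*m : ℕ):ℝ)^d)) with hl
  have hl0 : 0 < l := by positivity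
  have hsub : {a : (freq d m) × Fin 2 → ℝ | (∀ i, |a i - u i| ≤ δ) ∧
        ((2 * m : ℕ) : ℝ)^(((d:ℝ) - 2) / 2) * supNorm m (coef a) <
          c * ∑ l ∈ Finset.Nat.antidiagonalTuple d m, L1 (coef a) l} ⊆
      {a : (freq d m) × Fin 2 → ℝ | supNorm m (coef a) ≤ l} := by
    rintro a ⟨ha1, ha2⟩
    have hab : ∀ i, |a i| ≤ 1 + δ := by
      intro i
      have h1 := ha1 i
      have h2 := hu i
      have h3 : a i = (a i - u i) + u i := by ring
      calc |a i| = |(a i - u i) + u i| := by rw [← h3]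
        _ ≤ |a i - u i| + |u i| := abs_add_le _ _
        _ ≤ 1 + δ := by linarith
    have hsum : ∑ l ∈ Finset.Nat.antidiagonalTuple d m, L1 (coef a) l ≤
        (C1 * ((2*m : ℕ):ℝ)^(d-1)) * (Real.sqrt 2 * (1 + δ) * Real.sqrt (2^(2*m))) := by
      calc ∑ l ∈ Finset.Nat.antidiagonalTuple d m, L1 (coef a) l
          ≤ ∑ _l ∈ Finset.Nat.antidiagonalTuple d m, Real.sqrt 2 * (1 + δ) * Real.sqrt (2^(2*m)) :=
            Finset.sum_le_sum fun l hl => L1_bound a (1 + δ) (by positivity) hab l hl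
        _ = (shp d m : ℝ) * (Real.sqrt 2 * (1 + δ) * Real.sqrt (2^(2*m))) := by
            rw [Finset.sum_const, card_anti, nsmul_eq_mul]
        _ ≤ _ := by
            have h := hup m hm
            have h2 : (m:ℝ)^(d-1) ≤ ((2*m : ℕ):ℝ)^(d-1) := by
              apply pow_le_pow_left₀ (by positivity)
              push_cast
              linarith [(Nat.cast_nonneg m : (0:ℝ) ≤ m)]
            have h3 : (shp d m : ℝ) ≤ C1 * ((2*m : ℕ):ℝ)^(d-1) :=
              h.trans (mul_le_mul_of_nonneg_left h2 hC1.le)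
            exact mul_le_mul_of_nonneg_right h3 (by positivity)
    have h1 : ((2*m : ℕ):ℝ)^(((d:ℝ) - 2) / 2) * supNorm m (coef a) ≤
        ((2*m : ℕ):ℝ)^(((d:ℝ) - 2) / 2) * l := by
      refine ha2.le.trans ?_
      calc c * ∑ l ∈ Finset.Nat.antidiagonalTuple d m, L1 (coef a) l
          ≤ c * ((C1 * ((2*m : ℕ):ℝ)^(d-1)) * (Real.sqrt 2 * (1 + δ) * Real.sqrt (2^(2*m)))) := by
            gcongr
        _ = ((2*m : ℕ):ℝ)^(((d:ℝ) - 2) / 2) * l := by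
            rw [hl, ← hpw]
            ring
    exact le_of_mul_le_mul_left h1 hpos
  rw [HaarSB.vol_box u δ hδ, ← ENNReal.ofReal_mul (by positivity), ← mul_pow]
  refine (measure_mono hsub).trans ((hvol m hm l hl0).trans (le_of_eq ?_))
  congr 2
  rw [hl, hc]
  field_simp

end TrigSB
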