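import Pool.Agent.Helper719.Trig.Defs
import Pool.Agent.Helper719.Trig.P_mem_block

open MeasureTheory Real ProbabilityTheory
open scoped ENNReal BigOperators


namespace TrigSB
open HypVol


theorem sup_gridE_disj (d m : ℕ) :
    Set.PairwiseDisjoint (↑(Finset.Nat.antidiagonalTuple d m) : Set (Fin d → ℕ)) (block (d := d)) := by
  intro l _ l' _ hne
  rw [Function.onFun, Finset.disjoint_left]
  intro k hk hk'
  apply hne
  funext j
  have h1 := (mem_block l k).1 hk j
  have h2 := (mem_block l' k).1 hk' j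
  omega

theorem sup_gridE_sum (d m : ℕ) (a : (freq d m) × Fin 2 → ℝ) (x : Fin d → ℝ) :
    ∑ l ∈ Finset.Nat.antidiagonalTuple d m, blockPoly (coef a) l x =
      ∑ k : freq d m, (((a (k, 0) : ℝ) : ℂ) + ((a (k, 1) : ℝ) : ℂ) * Complex.I) *
        Complex.exp (Complex.I * ((∑ j : Fin d, (k.1 j : ℝ) * x j : ℝ) : ℂ)) := by
  have h1 : ∑ l ∈ Finset.Nat.antidiagonalTuple d m, blockPoly (coef a) l x =
      ∑ k ∈ freq d m, coef a k * Complex.exp (Complex.I * ∑ j : Fin d, ((((k j : ℝ) * x j : ℝ)) : ℂ)) := by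
    unfold freq blockPoly
    rw [Finset.sum_biUnion (sup_gridE_disj d m)]
  rw [h1, ← Finset.sum_coe_sort]
  apply Finset.sum_congr rfl
  intro k _
  rw [coef, dif_pos k.2, Complex.ofReal_sum]

theorem sup_gridE_le (d m : ℕ) (c : (Fin d → ℤ) → ℂ) (x : Fin d → ℝ) :
    ‖∑ l ∈ Finset.Nat.antidiagonalTuple d m, blockPoly c l x‖ ≤ supNorm m c := by
  unfold supNorm
  apply le_ciSup (f := fun x : Fin d → ℝ => ‖∑ l ∈ Finset.Nat.antidiagonalTuple d m, blockPoly c l x‖)
  refine ⟨∑ l ∈ Finset.Nat.antidiagonalTuple d m, ∑ k ∈ block l, ‖c k‖, ?_⟩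
  rintro _ ⟨y, rfl⟩
  refine (norm_sum_le _ _).trans (Finset.sum_le_sum fun l _ => ?_)
  unfold blockPoly
  refine (norm_sum_le _ _).trans (Finset.sum_le_sum fun k _ => ?_)
  rw [norm_mul, ← Complex.ofReal_sum, mul_comm Complex.I, Complex.norm_exp_ofReal_mul_I, mul_one]

theorem sup_gridE (d m : ℕ) (a : (freq d m) × Fin 2 → ℝ) (x : Gr d (2*m)) :
    |∑ β, a β * tbE β x| ≤ Real.sqrt 2 * supNorm m (coef a) := by
  obtain ⟨y, e⟩ := x
  have hb := sup_gridE_le d m (coef a) (fun j => 2 * π * ((y j : ℕ) : ℝ) / 2^(2*m+2))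
  have hth : ∀ k : Fin d → ℤ, (∑ j, (k j : ℝ) * (2 * π * ((y j : ℕ) : ℝ) / 2^(2*m+2))) = th k y := by
    intro k
    unfold th
    rw [Finset.mul_sum, Finset.sum_div]
    apply Finset.sum_congr rfl
    intro j _
    ring
  rw [sup_gridE_sum] at hb
  set P : ℂ := ∑ k : freq d m, (((a (k, 0) : ℝ) : ℂ) + ((a (k, 1) : ℝ) : ℂ) * Complex.I) *
        Complex.exp (Complex.I * ((∑ j : Fin d, (k.1 j : ℝ) *
          (2 * π * ((y j : ℕ) : ℝ) / 2^(2*m+2)) : ℝ) : ℂ)) with hP
  have hre : P.re =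
      ∑ k : freq d m, (a (k, 0) * Real.cos (th k.1 y) - a (k, 1) * Real.sin (th k.1 y)) := by
    rw [hP, Complex.re_sum]
    apply Finset.sum_congr rfl
    intro k _
    rw [hth, mul_comm Complex.I, Complex.mul_re, Complex.exp_ofReal_mul_I_re,
      Complex.exp_ofReal_mul_I_im]
    simp
  have him : P.im =
      ∑ k : freq d m, (a (k, 0) * Real.sin (th k.1 y) + a (k, 1) * Real.cos (th k.1 y)) := by
    rw [hP, Complex.im_sum]
    apply Finset.sum_congr rfl
    intro k _
    rw [hth, mul_comm Complex.I, Complex.mul_im, Complex.exp_ofReal_mul_I_re,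
      Complex.exp_ofReal_mul_I_im]
    simp
  have hs2 : (0:ℝ) ≤ Real.sqrt 2 := Real.sqrt_nonneg 2
  have hsum : ∑ i, a i * tbE i (y, e) = ∑ k : freq d m,
      (a (k, 0) * tbE (k, 0) (y, e) + a (k, 1) * tbE (k, 1) (y, e)) := by
    rw [Fintype.sum_prod_type]
    apply Finset.sum_congr rfl
    intro k _
    rw [Fin.sum_univ_two]
  rcases Fin.exists_fin_two.1 ⟨e, rfl⟩ with he | he
  · have e1 : ∑ i, a i * tbE i (y, e) = Real.sqrt 2 * P.re := by
      rw [hsum, hre, Finset.mul_sum]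
      apply Finset.sum_congr rfl
      intro k _
      subst he
      simp [tbE]
      ring
    rw [e1, abs_mul, abs_of_nonneg hs2]
    apply mul_le_mul_of_nonneg_left _ hs2
    exact (Complex.abs_re_le_norm _).trans hb
  · have e1 : ∑ i, a i * tbE i (y, e) = Real.sqrt 2 * P.im := by
      rw [hsum, him, Finset.mul_sum]
      apply Finset.sum_congr rfl
      intro k _
      subst he
      simp [tbE]
      ring
    rw [e1, abs_mul, abs_of_nonneg hs2]
    apply mul_le_mul_of_nonneg_left _ hs2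
    exact (Complex.abs_im_le_norm _).trans hb

end TrigSB
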