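import Pool.Agent.Helper719.Trig.Defs
import Pool.Agent.Helper719.Trig.Facts
import Pool.Agent.Helper719.Trig.P_card_freq
import Pool.Agent.Helper719.Trig.P_card_anti
import Pool.Agent.Helper719.Trig.P_sup_gridE
import Pool.Agent.Helper719.Haar.Vol
import Pool.Agent.Helper719.Haar.Main
import Pool.Agent.HypVol.L_pair_count

open MeasureTheory Real ProbabilityTheory
open scoped ENNReal BigOperators Pointwise

namespace TrigSB

open HypVol

theorem shp_half (d : ℕ) (hd : 1 ≤ d) : ∃ κ : ℝ, 0 < κ ∧ ∀ m : ℕ, 1 ≤ m →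
    κ * shp d (2*m) ≤ shp d m := by
  obtain ⟨c0, hc0, hlo⟩ := HypVol.shp_lower d hd
  obtain ⟨C1, hC1, hup⟩ := HypVol.shp_upper d hd
  refine ⟨c0 / (C1 * 2^(d-1)), by positivity, fun m hm => ?_⟩
  have h1 := hlo m hm
  have h2 := hup (2*m) (by omega)
  calc c0 / (C1 * 2^(d-1)) * shp d (2*m) ≤ c0 / (C1 * 2^(d-1)) * (C1 * ((2*m : ℕ):ℝ)^(d-1)) := by gcongr
    _ = c0 * (m:ℝ)^(d-1) := by
        push_cast
        rw [mul_pow]
        field_simp
    _ ≤ shp d m := h1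

theorem H_boundE (d : ℕ) (hd : 2 ≤ d) : ∃ a C : ℝ, 0 < a ∧ 0 < C ∧ ∀ m : ℕ, 1 ≤ m →
    (∑ x : Gr d (2*m), ∑ y : Gr d (2*m), (1 + ∑ i : (freq d m) × Fin 2, tbE i x * tbE i y)^2 *
      (Real.exp ((Real.sqrt (a * (2*m : ℕ) / (Fintype.card ((freq d m) × Fin 2) : ℝ)))^2 *
        ∑ i : (freq d m) × Fin 2, tbE i x * tbE i y) - 1))
        / (Fintype.card (Gr d (2*m)) : ℝ)^2 ≤ C * (2*m : ℕ) * 2^(2*m) := by
  obtain ⟨a0, C0, ha0, hC0, hk⟩ := HypVol.kern_sum d hd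
  obtain ⟨κ, hκ, hsh⟩ := shp_half d (by omega)
  refine ⟨a0 * κ, 4 ^ d * C0, by positivity, by positivity, fun m hm => ?_⟩
  have hn : 1 ≤ 2 * m := by omega
  have hm0 : (0:ℝ) < m := by exact_mod_cast hm
  obtain ⟨c0, hc0, hlo⟩ := HypVol.shp_lower d (by omega)
  have hshm : (0:ℝ) < shp d m := lt_of_lt_of_le (by positivity) (hlo m hm)
  have hshn : (0:ℝ) < shp d (2*m) := lt_of_lt_of_le (by positivity) (hlo (2*m) hn)
  have hcardι : (Fintype.card ((freq d m) × Fin 2) : ℝ) = 2 * (2^(2*m) * shp d m) := by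
    rw [Fintype.card_prod, Fintype.card_coe, Fintype.card_fin, card_freq]
    push_cast
    ring
  set F : (Fin d → ℕ) → ℝ := fun T => (1 + 2 * Th d (2*m) T) ^ 2 *
    (Real.exp (a0 * (2*m : ℕ) * Th d (2*m) T / (2 ^ (2*m) * shp d (2*m))) - 1) with hF
  have hTh : ∀ T : Fin d → ℕ, 0 ≤ Th d (2*m) T := by
    intro T
    unfold Th
    positivity
  have hF0 : ∀ T, 0 ≤ F T := by
    intro T
    have h1 := hTh T
    have h2 : 0 ≤ a0 * (2*m : ℕ) * Th d (2*m) T / (2 ^ (2*m) * shp d (2*m)) := by positivity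
    have h3 : 0 ≤ Real.exp (a0 * (2*m : ℕ) * Th d (2*m) T / (2 ^ (2*m) * shp d (2*m))) - 1 := by
      have := Real.one_le_exp h2
      linarith
    simp only [hF]
    positivity
  obtain ⟨-, -, -, htb⟩ := tbE_facts d m hm
  set q : ℝ := a0 * κ * (2*m : ℕ) / (Fintype.card ((freq d m) × Fin 2) : ℝ) with hq
  have hq0 : 0 ≤ q := by positivity
  have hs : (Real.sqrt q) ^ 2 = q := Real.sq_sqrt hq0
  have hqle : ∀ θ : ℝ, 0 ≤ θ → q * (2 * θ) ≤ a0 * (2*m : ℕ) * θ / (2 ^ (2*m) * shp d (2*m)) := by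
    intro θ hθ
    rw [hq, hcardι]
    have e1 : a0 * κ * ((2*m : ℕ):ℝ) / (2 * (2^(2*m) * shp d m)) * (2 * θ) =
        (a0 * ((2*m : ℕ):ℝ) * θ / 2^(2*m)) * (κ / shp d m) := by
      field_simp
    have e2 : a0 * ((2*m : ℕ):ℝ) * θ / (2 ^ (2*m) * shp d (2*m)) =
        (a0 * ((2*m : ℕ):ℝ) * θ / 2^(2*m)) * (1 / shp d (2*m)) := by
      field_simp
    rw [e1, e2]
    apply mul_le_mul_of_nonneg_left _ (by positivity)
    rw [div_le_div_iff₀ hshm hshn, one_mul]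
    exact hsh m hm
  have hpt : ∀ x y : Gr d (2*m), (1 + ∑ i : (freq d m) × Fin 2, tbE i x * tbE i y) ^ 2 *
      (Real.exp ((Real.sqrt q) ^ 2 *
        ∑ i : (freq d m) × Fin 2, tbE i x * tbE i y) - 1) ≤
      F (fun j => T1 (2*m) (x.1 j) (y.1 j)) := by
    intro x y
    set D := ∑ i : (freq d m) × Fin 2, tbE i x * tbE i y with hD
    set θ := Th d (2*m) (fun j => T1 (2*m) (x.1 j) (y.1 j)) with hθ
    have hDb : |D| ≤ 2 * θ := (htb x y).trans (by
      have := freq_bound d m x.1 y.1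
      linarith)
    have hθ0 : 0 ≤ θ := hTh _
    have hF' : (1 + 2 * θ) ^ 2 * (Real.exp (q * (2 * θ)) - 1) ≤
        F (fun j => T1 (2*m) (x.1 j) (y.1 j)) := by
      simp only [hF, ← hθ]
      apply mul_le_mul_of_nonneg_left _ (by positivity)
      have := Real.exp_le_exp.2 (hqle θ hθ0)
      linarith
    refine le_trans ?_ hF'
    rw [hs]
    have hR : 0 ≤ Real.exp (q * (2 * θ)) - 1 := by
      have := Real.one_le_exp (show 0 ≤ q * (2 * θ) by positivity)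
      linarith
    rcases le_or_gt 0 D with h | h
    · have hD2 : D ≤ 2 * θ := (le_abs_self D).trans hDb
      have h1 : (1 + D) ^ 2 ≤ (1 + 2 * θ) ^ 2 := by gcongr
      have h2 : Real.exp (q * D) ≤ Real.exp (q * (2 * θ)) :=
        Real.exp_le_exp.2 (mul_le_mul_of_nonneg_left hD2 hq0)
      have h3 : 0 ≤ Real.exp (q * D) - 1 := by
        have := Real.one_le_exp (mul_nonneg hq0 h)
        linarith
      exact mul_le_mul h1 (by linarith) h3 (by positivity)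
    · have h1 : Real.exp (q * D) ≤ 1 :=
        Real.exp_le_one_iff.2 (mul_nonpos_of_nonneg_of_nonpos hq0 h.le)
      have h2 : (1 + D) ^ 2 * (Real.exp (q * D) - 1) ≤ 0 :=
        mul_nonpos_of_nonneg_of_nonpos (sq_nonneg _) (by linarith)
      exact h2.trans (mul_nonneg (sq_nonneg _) hR)
  have hsum : (∑ x : Gr d (2*m), ∑ y : Gr d (2*m), F (fun j => T1 (2*m) (x.1 j) (y.1 j))) =
      4 * ∑ x : Fin d → Fin (2 ^ (2*m + 2)), ∑ y : Fin d → Fin (2 ^ (2*m + 2)),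
        F (fun j => T1 (2*m) (x j) (y j)) := by
    rw [Fintype.sum_prod_type]
    simp_rw [Fintype.sum_prod_type, Finset.sum_const, Finset.card_univ, Fintype.card_fin,
      nsmul_eq_mul, ← Finset.mul_sum]
    push_cast
    ring
  have hcard : (Fintype.card (Gr d (2*m)) : ℝ) ^ 2 = 4 * ((2 : ℝ) ^ (2*m + 2)) ^ (2 * d) := by
    have : Fintype.card (Gr d (2*m)) = (2 ^ (2*m + 2)) ^ d * 2 := by
      simp [Gr, Fintype.card_prod, Fintype.card_pi]
    rw [this]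
    push_cast
    rw [mul_pow, ← pow_mul, ← pow_mul, ← pow_mul]
    rw [mul_comm d 2]
    norm_num
    ring
  rw [hcard, div_le_iff₀ (by positivity)]
  calc (∑ x : Gr d (2*m), ∑ y : Gr d (2*m), (1 + ∑ i : (freq d m) × Fin 2, tbE i x * tbE i y) ^ 2 *
      (Real.exp ((Real.sqrt q) ^ 2 *
        ∑ i : (freq d m) × Fin 2, tbE i x * tbE i y) - 1))
      ≤ ∑ x : Gr d (2*m), ∑ y : Gr d (2*m), F (fun j => T1 (2*m) (x.1 j) (y.1 j)) :=
        Finset.sum_le_sum fun x _ => Finset.sum_le_sum fun y _ => hpt x y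
    _ = 4 * ∑ x : Fin d → Fin (2 ^ (2*m + 2)), ∑ y : Fin d → Fin (2 ^ (2*m + 2)),
        F (fun j => T1 (2*m) (x j) (y j)) := hsum
    _ ≤ 4 * (((2:ℝ)^(2*m+2))^(2*d) * 4^d *
        ∑ T : Fin d → Fin (2*m+3), (1/2)^(∑ j, ((T j : Fin (2*m+3)) : ℕ)) * F (fun j => T j)) := by
        have := HypVol.pair_count d (2*m) F hF0
        linarith
    _ ≤ 4 * (((2:ℝ)^(2*m+2))^(2*d) * 4^d * (C0 * (2*m : ℕ) * 2 ^ (2*m))) := by
        have := hk (2*m) hn
        gcongr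
    _ = 4 ^ d * C0 * (2*m : ℕ) * 2 ^ (2*m) * (4 * ((2 : ℝ) ^ (2*m + 2)) ^ (2 * d)) := by ring

/-- volume of the unit ball of the sup norm -/
theorem vol_trig (d : ℕ) (hd : 3 ≤ d) : ∃ C : ℝ, 0 < C ∧ ∀ m : ℕ, 1 ≤ m → ∀ l : ℝ, 0 < l →
    volume {a : (freq d m) × Fin 2 → ℝ | supNorm m (coef a) ≤ l} ≤
      ENNReal.ofReal ((C * l / (Real.sqrt (2^(2*m)) * Real.sqrt (((2*m : ℕ):ℝ)^d))) ^
        (Fintype.card ((freq d m) × Fin 2))) := by
  obtain ⟨a, CH, ha, hCH, hH⟩ := H_boundE d (by omega)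
  obtain ⟨c1, hc1, hshp⟩ := HypVol.shp_lower d (by omega)
  set K : ℝ := Real.sqrt 2 * (2 * π * Real.exp 1) *
        Real.exp (4 + 4 * (a + (3 + 3 * d)) * CH / (c1 / 2^(d-1))) * (Real.sqrt (2 * π * a))⁻¹ *
      (Real.sqrt (2 * (c1 / 2^(d-1))))⁻¹ with hK
  have hK0 : 0 < K := by positivity
  refine ⟨K * Real.sqrt 2, by positivity, ?_⟩
  intro m hm l hl
  have hn : 1 ≤ 2 * m := by omega
  have hm1 : (1:ℝ) ≤ m := by exact_mod_cast hm
  have hn1 : (1:ℝ) ≤ ((2*m : ℕ):ℝ) := by exact_mod_cast hn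
  have hn0 : (0:ℝ) < ((2*m : ℕ):ℝ) := by linarith
  obtain ⟨f0, f1, f2, _⟩ := tbE_facts d m hm
  have hcardι : (Fintype.card ((freq d m) × Fin 2) : ℝ) = 2 * (2^(2*m) * shp d m) := by
    rw [Fintype.card_prod, Fintype.card_coe, Fintype.card_fin, card_freq]
    push_cast
    ring
  have hN : 2 * (c1 / 2^(d-1)) * (2^(2*m) * ((2*m : ℕ):ℝ)^(d-1)) ≤
      (Fintype.card ((freq d m) × Fin 2) : ℝ) := by
    rw [hcardι]
    have h := hshp m hm
    calc 2 * (c1 / 2^(d-1)) * (2^(2*m) * ((2*m : ℕ):ℝ)^(d-1)) = 2 * (2^(2*m) * (c1 * (m:ℝ)^(d-1))) := by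
          push_cast
          rw [mul_pow]
          field_simp
      _ ≤ _ := by gcongr
  have hX0 : Nonempty (Gr d (2*m)) := ⟨(fun _ => ⟨0, by positivity⟩, 0)⟩
  have hX : Real.log (2 * Fintype.card (Gr d (2*m))) + 1 ≤ (3 + 3 * d) * ((2*m : ℕ):ℝ) := by
    have e1 : (2 * Fintype.card (Gr d (2*m)) : ℝ) = 2^(2 + (2*m+2)*d) := by
      have : Fintype.card (Gr d (2*m)) = (2^(2*m+2))^d * 2 := by
        rw [Fintype.card_prod, Fintype.card_fun, Fintype.card_fin, Fintype.card_fin,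
          Fintype.card_fin]
      rw [this]
      push_cast
      rw [← pow_mul]
      ring
    rw [e1, Real.log_pow]
    have hlog2 : Real.log 2 ≤ 1 := by
      have := Real.log_two_lt_d9
      linarith
    have hd0 : (0:ℝ) ≤ d := by positivity
    calc ((2 + (2*m+2)*d : ℕ) : ℝ) * Real.log 2 + 1 ≤ ((2 + (2*m+2)*d : ℕ) : ℝ) * 1 + 1 := by gcongr
      _ ≤ (3 + 3 * d) * ((2*m : ℕ):ℝ) := by
        push_cast
        nlinarith
  have hv := HaarSB.vol_abs (X := Gr d (2*m)) (ι := (freq d m) × Fin 2) tbE f0 f1 f2 d (2*m) hd hn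
    a (c1 / 2^(d-1)) (3 + 3 * d) CH ha (by positivity) (by positivity) hCH hN hX (hH m hm)
  rw [← hK] at hv
  set t : ℝ := Real.sqrt 2 * l with ht
  have ht0 : 0 < t := by positivity
  have hsub : {v : (freq d m) × Fin 2 → ℝ | supNorm m (coef v) ≤ l} ⊆
      t • {v : (freq d m) × Fin 2 → ℝ | ∀ x : Gr d (2*m), |∑ i, v i * tbE i x| ≤ 1} := by
    intro v hvv
    rw [Set.mem_smul_set_iff_inv_smul_mem₀ ht0.ne']
    intro x
    have h1 := (sup_gridE d m v x).trans (mul_le_mul_of_nonneg_left hvv (Real.sqrt_nonneg _))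
    have h2 : ∑ i, (t⁻¹ • v) i * tbE i x = t⁻¹ * ∑ i, v i * tbE i x := by
      rw [Finset.mul_sum]
      apply Finset.sum_congr rfl
      intro i _
      rw [Pi.smul_apply, smul_eq_mul, mul_assoc]
    rw [h2, abs_mul, abs_of_pos (inv_pos.2 ht0)]
    calc t⁻¹ * |∑ i, v i * tbE i x| ≤ t⁻¹ * t := by gcongr
      _ = 1 := inv_mul_cancel₀ ht0.ne'
  calc volume {v : (freq d m) × Fin 2 → ℝ | supNorm m (coef v) ≤ l}
      ≤ volume (t • {v : (freq d m) × Fin 2 → ℝ | ∀ x : Gr d (2*m), |∑ i, v i * tbE i x| ≤ 1}) :=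
        measure_mono hsub
    _ = ENNReal.ofReal (t ^ Fintype.card ((freq d m) × Fin 2)) *
        volume {v : (freq d m) × Fin 2 → ℝ | ∀ x : Gr d (2*m), |∑ i, v i * tbE i x| ≤ 1} := by
        rw [Measure.addHaar_smul, Module.finrank_fintype_fun_eq_card, abs_of_nonneg (by positivity)]
    _ ≤ ENNReal.ofReal (t ^ Fintype.card ((freq d m) × Fin 2)) *
        ENNReal.ofReal ((K * (Real.sqrt (2^(2*m) * ((2*m : ℕ):ℝ)^d))⁻¹)^
          (Fintype.card ((freq d m) × Fin 2))) :=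
        mul_le_mul_right hv _
    _ = ENNReal.ofReal ((K * Real.sqrt 2 * l / (Real.sqrt (2^(2*m)) * Real.sqrt (((2*m : ℕ):ℝ)^d))) ^
        (Fintype.card ((freq d m) × Fin 2))) := by
        rw [← ENNReal.ofReal_mul (by positivity), ← mul_pow]
        congr 2
        rw [Real.sqrt_mul (by positivity), ht]
        ring

end TrigSB
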